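import Mathlib
import Pool.Agent.H314.ZN.Gen

/-!
# The `L_p`-Brunn-Minkowski inequality, `0 < p < 1`, with its equality case, for origin-symmetric
convex bodies with `n - 2` common reflections, and when the combination is a zonoid
-/

set_option autoImplicit false

open MeasureTheory

namespace Pool.Agent.Results.MP_b5407d_gt.Reflections

/-- Euclidean space `ℝⁿ` -/
abbrev E (n : ℕ) : Type := EuclideanSpace ℝ (Fin n)

variable {n : ℕ}

/-- origin-symmetric convex body -/
structure SymBody (K : Set (E n)) : Prop where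
  /-- convex -/
  convex : Convex ℝ K
  /-- compact -/
  compact : IsCompact K
  /-- with interior points -/
  interior_nonempty : (interior K).Nonempty
  /-- symmetric with respect to the origin -/
  symm : ∀ x ∈ K, -x ∈ K

/-- support function -/
noncomputable def supp (K : Set (E n)) (u : E n) : ℝ := sSup ((fun y => inner ℝ y u) '' K)

/-- the `L_p` combination `α K +_p β C` -/
noncomputable def lpComb (p α β : ℝ) (K C : Set (E n)) : Set (E n) :=
  {x | ∀ u : E n, ‖u‖ = 1 → inner ℝ x u ≤ (α * supp K u ^ p + β * supp C u ^ p) ^ (1 / p)}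

/-- reflection in the coordinate hyperplane `x_j = 0` -/
noncomputable def refl (j : Fin n) (x : E n) : E n :=
  WithLp.toLp 2 (Function.update (WithLp.ofLp x) j (-(WithLp.ofLp x j)))

/-- `K` is invariant under the reflections in all coordinate hyperplanes except the first two -/
def Inv (K : Set (E n)) : Prop := ∀ j : Fin n, 2 ≤ (j : ℕ) → ∀ x ∈ K, refl j x ∈ K

/-- for some linear automorphism `Φ` of `ℝⁿ`, both `Φ K` and `Φ C` are invariant under the
reflections in all coordinate hyperplanes except the first two -/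
def CommonRefl (K C : Set (E n)) : Prop :=
  ∃ Φ : E n ≃ₗ[ℝ] E n, Inv (Φ '' K) ∧ Inv (Φ '' C)

/-- zonotope `∑ [-z_j, z_j]` -/
def IsZonotope (K : Set (E n)) : Prop :=
  ∃ (N : ℕ) (z : Fin N → E n), K = {x | ∃ t : Fin N → ℝ, (∀ j, |t j| ≤ 1) ∧ x = ∑ j, t j • z j}

/-- zonoid: a limit of zonotopes in the Hausdorff metric -/
def IsZonoid (K : Set (E n)) : Prop :=
  IsCompact K ∧ ∀ ε : ℝ, 0 < ε → ∃ Z : Set (E n), IsZonotope Z ∧ Metric.hausdorffDist K Z < ε

theorem SymBody.sb {K : Set (E n)} (h : SymBody K) : H354ZN.SB K := by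
  refine ⟨h.convex, h.compact, ?_, h.symm⟩
  obtain ⟨y, hy⟩ := h.interior_nonempty
  have h1 : -y ∈ interior K := by
    have h2 : (Neg.neg ⁻¹' (interior K) : Set (E n)) ⊆ K := fun x hx => by
      have := h.symm _ (interior_subset hx)
      rwa [neg_neg] at this
    have h3 : IsOpen (Neg.neg ⁻¹' (interior K) : Set (E n)) :=
      isOpen_interior.preimage continuous_neg
    exact interior_maximal h2 h3 (by simpa using hy)
  have h4 := h.convex.interior hy h1 (by norm_num : (0 : ℝ) ≤ 1 / 2)
    (by norm_num : (0 : ℝ) ≤ 1 / 2) (by norm_num)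
  simpa using h4

theorem CommonRefl.refl2 {K L : Set (E n)} (h : CommonRefl K L) : H354ZN.Refl2 K L := by
  obtain ⟨Φ, h1, h2⟩ := h
  exact ⟨Φ.toContinuousLinearEquiv, h1, h2⟩

/-- **Theorem.** Let `0 < p < 1` and `α, β > 0`, and let `K`, `C` be origin-symmetric convex bodies
in `ℝⁿ` which have `n - 2` common reflections (`n ≥ 2`), or for which `α K +_p β C` is a zonoid.
Then `V(α K +_p β C)^(p/n) ≥ α V(K)^(p/n) + β V(C)^(p/n)`, with equality if and only if `K` and `C`
are dilates. -/
theorem result (n : ℕ) (hn : 1 ≤ n) (K C : Set (E n)) (p α β : ℝ) (hK : SymBody K)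
    (hC : SymBody C) (hp : 0 < p) (hp1 : p < 1) (hα : 0 < α) (hβ : 0 < β)
    (h : (2 ≤ n ∧ CommonRefl K C) ∨ IsZonoid (lpComb p α β K C)) :
    α * (volume K).toReal ^ (p / n) + β * (volume C).toReal ^ (p / n) ≤
        (volume (lpComb p α β K C)).toReal ^ (p / n) ∧
      ((volume (lpComb p α β K C)).toReal ^ (p / n) =
          α * (volume K).toReal ^ (p / n) + β * (volume C).toReal ^ (p / n) ↔
        ∃ t : ℝ, 0 < t ∧ C = (fun x : E n => t • x) '' K) := by
  rcases h with ⟨h2, h⟩ | h
  · obtain ⟨h3, h4⟩ := H354ZN.refl2_LP (p := p) h2 hK.sb hC.sb h.refl2 hp hα hβ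
    exact H354ZN.lp_of_LM hn hK.sb hC.sb hp hp1 hα hβ h3 h4
  · exact H354ZN.a_LPZ n K C p α β hn hK.sb hC.sb hp hp1 hα hβ h

end Pool.Agent.Results.MP_b5407d_gt.Reflections
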